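import Pool.Agent.Work.MP_ef7f46_tn.Interface

set_option autoImplicit false
open Classical Finset

noncomputable section

namespace TN

theorem adp_ok : Stmt_ADP := by
  intro Q Λ _ _ X z z' I i
  induction i with
  | zero => intro _; rfl
  | succ i ih =>
    intro h
    have h1 : st X z I i = st X z' I i := ih (fun p hp => h p (by omega))
    simp only [st]
    split_ifs with hi
    · rw [h1]
      have h2 : (fun j => z (⟨i, hi⟩, j)) = (fun j => z' (⟨i, hi⟩, j)) := by
        funext j
        exact h (⟨i, hi⟩, j) (by simp)
      rw [h2]
    · exact h1

end TN
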