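import Pool.Agent.Work.MP_ef7f46_tn.Interface

set_option autoImplicit false
open Classical Finset

noncomputable section

namespace TN

theorem che_ok : Stmt_CHE := by
  intro Q Λ _ _ X hX w hw
  have hN0 : (0 : ℝ) < X.N := by exact_mod_cast hX.lin.Npos
  have hex := hX.netap w hw
  have happr : appr X w = hex.choose := by rw [appr, dif_pos hex]
  have hmem : appr X w ∈ X.net := by rw [happr]; exact hex.choose_spec.1
  have hnear : Near X w (appr X w) := by rw [happr]; exact hex.choose_spec.2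
  refine ⟨hmem, hnear, ?_⟩
  have h1 : ((Exc X w).card : ℝ) * (X.eta * X.N) ^ 2 ≤ X.tau ^ 2 * X.N ^ 2 * qq X := by
    calc ((Exc X w).card : ℝ) * (X.eta * X.N) ^ 2
        = ∑ y ∈ Exc X w, (X.eta * X.N) ^ 2 := by rw [Finset.sum_const, nsmul_eq_mul]
      _ ≤ ∑ y ∈ Exc X w, (dg X.inc w y - dg X.inc (appr X w) y) ^ 2 := by
          apply Finset.sum_le_sum
          intro y hy
          have h2 := (Finset.mem_filter.1 hy).2
          have h3 : 0 ≤ X.eta * X.N := mul_nonneg hX.etapos.le hN0.le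
          rw [← sq_abs (dg X.inc w y - dg X.inc (appr X w) y)]
          exact pow_le_pow_left₀ h3 h2.le 2
      _ ≤ ∑ y, (dg X.inc w y - dg X.inc (appr X w) y) ^ 2 :=
          Finset.sum_le_sum_of_subset_of_nonneg (Finset.subset_univ _)
            (fun y _ _ => sq_nonneg _)
      _ ≤ X.tau ^ 2 * X.N ^ 2 * qq X := hnear
  have h4 : (0 : ℝ) < (X.eta * X.N) ^ 2 := by
    have := hX.etapos
    positivity
  have h5 : (X.tau / X.eta) ^ 2 * qq X = X.tau ^ 2 * X.N ^ 2 * qq X / (X.eta * X.N) ^ 2 := by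
    have := hX.etapos
    field_simp
  rw [h5, le_div_iff₀ h4]
  exact h1

end TN
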