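import Pool.Agent.Work.MP_ef7f46_tn.Interface

set_option autoImplicit false
open Classical Finset

noncomputable section

namespace TN

theorem lcard_ok : Stmt_LCARD := by
  intro Q Λ _ _ inc N M h
  have hN0 : (0 : ℝ) < N := by exact_mod_cast h.Npos
  have hM0 : (0 : ℝ) < M := by exact_mod_cast h.Mpos
  refine ⟨?_, ?_, ?_, ?_⟩
  · -- double counting
    have h1 : ∑ ℓ : Λ, (inc ℓ).card = ∑ y : Q, (univ.filter (fun ℓ => y ∈ inc ℓ)).card := by
      have : ∀ ℓ : Λ, (inc ℓ).card = ∑ y : Q, if y ∈ inc ℓ then 1 else 0 := by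
        intro ℓ; simp
      simp_rw [this, Finset.card_filter]
      rw [Finset.sum_comm]
    have h2 : Fintype.card Λ * N ≤ (N * M) * N := by
      calc Fintype.card Λ * N = ∑ ℓ : Λ, (inc ℓ).card := by
            simp [h.line]
        _ = ∑ y : Q, (univ.filter (fun ℓ => y ∈ inc ℓ)).card := h1
        _ ≤ ∑ y : Q, N := Finset.sum_le_sum (fun y _ => h.deg y)
        _ = (N * M) * N := by simp [h.cardQ]
    have h3 : Fintype.card Λ ≤ N * M := Nat.le_of_mul_le_mul_right h2 h.Npos
    exact_mod_cast h3
  · intro w g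
    unfold dg
    simp_rw [Finset.mul_sum]
    rw [Finset.sum_comm]
    apply Finset.sum_congr rfl
    intro ℓ _
    rw [← Finset.sum_filter_add_sum_filter_not univ (fun y => y ∈ inc ℓ)]
    have h5 : ∑ y ∈ univ.filter (fun y => ¬ y ∈ inc ℓ), g y * (if y ∈ inc ℓ then w ℓ else 0) = 0 := by
      apply Finset.sum_eq_zero
      intro y hy
      rw [if_neg (Finset.mem_filter.1 hy).2, mul_zero]
    rw [h5, add_zero]
    have h6 : univ.filter (fun y => y ∈ inc ℓ) = inc ℓ := by ext y; simp
    rw [h6]
    apply Finset.sum_congr rfl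
    intro y hy
    rw [if_pos hy, mul_comm]
  · intro w hw y
    apply Finset.sum_nonneg
    intro ℓ _
    split_ifs
    · exact hw ℓ
    · exact le_rfl
  · intro w R hw y
    have hR : 0 ≤ R := by
      have : 0 < Fintype.card Λ := by
        have h7 := h.many
        have h8 : (0 : ℝ) < Fintype.card Λ := lt_of_lt_of_le (by positivity) h7
        exact_mod_cast h8
      obtain ⟨ℓ⟩ := Fintype.card_pos_iff.1 this
      exact (hw ℓ).1.trans (hw ℓ).2
    calc dg inc w y ≤ ∑ ℓ : Λ, if y ∈ inc ℓ then R else 0 := by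
          apply Finset.sum_le_sum
          intro ℓ _
          split_ifs
          · exact (hw ℓ).2
          · exact le_rfl
      _ = (univ.filter (fun ℓ => y ∈ inc ℓ)).card * R := by
          rw [← Finset.sum_filter, Finset.sum_const, nsmul_eq_mul]
      _ ≤ N * R := by
          apply mul_le_mul_of_nonneg_right _ hR
          exact_mod_cast h.deg y

end TN
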