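import Pool.Agent.Work.MP_ef7f46_tn.Interface

set_option autoImplicit false
open Classical Finset

noncomputable section

namespace TN

theorem psi_eq1 {x : ℝ} (h : x ≤ 2) : psi x = 0 ∧ psi' x = 0 := by
  have h1 : max 0 (x - 2) = 0 := max_eq_left (by linarith)
  have h2 : max 0 (x - 3) = 0 := max_eq_left (by linarith)
  have h3 : min 1 (x - 2) = x - 2 := min_eq_right (by linarith)
  refine ⟨by rw [psi, h1, h2]; norm_num, by rw [psi', h3, h1]⟩

theorem psi_eq2 {x : ℝ} (h : 2 ≤ x) (h' : x ≤ 3) : psi x = (x - 2) ^ 2 / 2 ∧ psi' x = x - 2 := by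
  have h1 : max 0 (x - 2) = x - 2 := max_eq_right (by linarith)
  have h2 : max 0 (x - 3) = 0 := max_eq_left (by linarith)
  have h3 : min 1 (x - 2) = x - 2 := min_eq_right (by linarith)
  refine ⟨by rw [psi, h1, h2]; norm_num, by rw [psi', h3, h1]⟩

theorem psi_eq3 {x : ℝ} (h : 3 ≤ x) : psi x = x - 5 / 2 ∧ psi' x = 1 := by
  have h1 : max 0 (x - 2) = x - 2 := max_eq_right (by linarith)
  have h2 : max 0 (x - 3) = x - 3 := max_eq_right (by linarith)
  have h3 : min 1 (x - 2) = 1 := min_eq_left (by linarith)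
  refine ⟨by rw [psi, h1, h2]; ring, by rw [psi', h3]; norm_num⟩

theorem psi_ok : Stmt_PSI := by
  intro a b
  refine ⟨?_, ?_, fun h => (psi_eq1 h).1, ?_, ?_, ?_⟩
  · rcases le_total a 2 with ha | ha
    · obtain ⟨e1, e2⟩ := psi_eq1 ha
      rw [e1, e2]
      rcases le_total b 2 with hb | hb
      · rw [(psi_eq1 hb).1]; nlinarith [sq_nonneg (b - a)]
      · rcases le_total b 3 with hb' | hb'
        · rw [(psi_eq2 hb hb').1]; nlinarith
        · rw [(psi_eq3 hb').1]; nlinarith [sq_nonneg (b - 3)]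
    · rcases le_total a 3 with ha' | ha'
      · obtain ⟨e1, e2⟩ := psi_eq2 ha ha'
        rw [e1, e2]
        rcases le_total b 2 with hb | hb
        · rw [(psi_eq1 hb).1]; nlinarith [sq_nonneg (b - 2)]
        · rcases le_total b 3 with hb' | hb'
          · rw [(psi_eq2 hb hb').1]; nlinarith
          · rw [(psi_eq3 hb').1]; nlinarith [sq_nonneg (b - 3)]
      · obtain ⟨e1, e2⟩ := psi_eq3 ha'
        rw [e1, e2]
        rcases le_total b 2 with hb | hb
        · rw [(psi_eq1 hb).1]; nlinarith [sq_nonneg (b - a + 1)]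
        · rcases le_total b 3 with hb' | hb'
          · rw [(psi_eq2 hb hb').1]; nlinarith [sq_nonneg (b - a)]
          · rw [(psi_eq3 hb').1]; nlinarith [sq_nonneg (b - a)]
  · rcases le_total a 2 with ha | ha
    · rw [(psi_eq1 ha).1]
    · rcases le_total a 3 with ha' | ha'
      · rw [(psi_eq2 ha ha').1]; positivity
      · rw [(psi_eq3 ha').1]; linarith
  · intro h; rw [(psi_eq3 h).1]; linarith
  · exact le_max_left _ _
  · exact max_le (by norm_num) (min_le_left _ _)

end TN
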